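import Pool.Agent.Helper22.TL.Spec

set_option autoImplicit false

/-! # TL, part COX: the automorphism group is a Coxeter group -/

namespace TL

theorem cox_thm : S_COX := by
  intro d G _ ρ hG
  have hinv : ∀ i, (ρ i)⁻¹ = ρ i := fun i => inv_eq_of_mul_eq_one_left (hG.sq i)
  have hswap : ∀ i j, orderOf (ρ j * ρ i) = orderOf (ρ i * ρ j) := by
    intro i j
    rw [← orderOf_inv (ρ i * ρ j), mul_inv_rev, hinv, hinv]
  let M : CoxeterMatrix (Fin (d + 1)) :=
    { M := fun i j => orderOf (ρ i * ρ j)
      isSymm := by
        ext i j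
        exact hswap i j
      diagonal := by
        intro i
        change orderOf (ρ i * ρ i) = 1
        rw [hG.sq, orderOf_one]
      off_diagonal := by
        have key : ∀ i j : Fin (d + 1), i < j → orderOf (ρ i * ρ j) ≠ 1 := by
          intro i j hij
          have hij' : (i : ℕ) < j := hij
          rcases Nat.eq_or_lt_of_le (Nat.succ_le_of_lt hij') with h | h
          · have := hG.ord i j h
            omega
          · have := hG.comm i j (by omega)
            omega
        intro i j hij
        rcases lt_or_gt_of_ne hij with h | h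
        · exact key i j h
        · change orderOf (ρ i * ρ j) ≠ 1
          rw [← hswap i j]
          exact key j i h }
  have hM : ∀ i j, M i j = orderOf (ρ i * ρ j) := fun i j => rfl
  let cs₀ : CoxeterSystem M M.Group := M.toCoxeterSystem
  obtain ⟨f, hf⟩ := hG.up M.Group cs₀.simple (fun i => cs₀.simple_mul_simple_self i) (by
    intro i j _ m hm
    obtain ⟨k, rfl⟩ := orderOf_dvd_of_pow_eq_one hm
    rw [pow_mul, ← hM, cs₀.simple_mul_simple_pow, one_pow])
  have hlift : M.IsLiftable ρ := by
    intro i j
    rw [hM]
    exact pow_orderOf_eq_one _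
  let g : M.Group →* G := cs₀.lift ⟨ρ, hlift⟩
  have hg : ∀ i, g (cs₀.simple i) = ρ i := fun i => cs₀.lift_apply_simple hlift i
  have h1 : g.comp f = MonoidHom.id G := by
    apply MonoidHom.eq_of_eqOn_dense hG.gen
    rintro _ ⟨i, rfl⟩
    rw [MonoidHom.comp_apply, hf, hg, MonoidHom.id_apply]
  have h2 : f.comp g = MonoidHom.id M.Group := by
    apply cs₀.ext_simple
    intro i
    rw [MonoidHom.comp_apply, hg, hf, MonoidHom.id_apply]
  refine ⟨M, ⟨MonoidHom.toMulEquiv f g h1 h2⟩, ?_, hM⟩
  intro i
  exact hg i

end TL
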