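import Pool.Agent.Helper22.TL.Spec

set_option autoImplicit false

/-! # TL, part EXT: chains of faces and maximal chains of the face poset -/

namespace TL

open Set

variable {d : ℕ} {𝒯 : Set (Set (E d))}

/-- A finite chain of sets can be enumerated increasingly. -/
theorem ext_enum {X : Type} (s : Finset (Set X)) (hs : IsChain (· ⊆ ·) (s : Set (Set X))) :
    ∃ F : Fin s.card → Set X, StrictMono F ∧ ∀ i, F i ∈ s := by
  classical
  letI : LinearOrder {x // x ∈ s} :=
    { (inferInstance : PartialOrder {x // x ∈ s}) with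
      le_total := by
        rintro ⟨a, ha⟩ ⟨b, hb⟩
        exact hs.total ha hb
      toDecidableLE := Classical.decRel _ }
  let e : Fin s.card ≃o {x // x ∈ s} :=
    Fintype.orderIsoFinOfCardEq {x // x ∈ s} (by simp)
  refine ⟨fun i => (e i).1, ?_, fun i => (e i).2⟩
  intro i j hij
  have h1 : e i < e j := e.strictMono hij
  exact h1

/-- The empty face. -/
def ext_bot (h : LFC 𝒯) : FP 𝒯 :=
  ⟨∅, Or.inr (by
    obtain ⟨T, hT, -⟩ := h.cover 0
    exact ⟨T, hT, ⟨empty_subset _, fun x _ y _ z hz => absurd hz (notMem_empty _)⟩,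
      convex_empty⟩)⟩

/-- The whole space. -/
def ext_top (𝒯 : Set (Set (E d))) : FP 𝒯 := ⟨univ, Or.inl rfl⟩

theorem ext_thm (hD : S_DIM) (hG : S_GLOB) : S_EXT := by
  classical
  intro d 𝒯 hd hL
  refine ⟨?_, ?_⟩
  · intro C hC hchain
    have h1 : IsChain (· ≤ ·) {x : FP 𝒯 | x.1 ∈ C} := by
      intro x hx y hy hxy
      have h2 : x.1 ≠ y.1 := fun h => hxy (Subtype.ext h)
      exact hchain hx hy h2
    obtain ⟨c, hc, hsub⟩ := h1.exists_maxChain
    refine ⟨c, hc, fun F hF => ?_⟩
    exact ⟨⟨F, Or.inr (hC F hF).2⟩, hsub hF, rfl⟩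
  · intro c hc
    obtain ⟨-, -, -, hri, -, -, -⟩ := hG d 𝒯 hL
    obtain ⟨hdim, -, -⟩ := hD d 𝒯 hL
    -- bottom and top are in `c`
    have hbot : ext_bot hL ∈ c := by
      have h1 : IsChain (· ≤ ·) (insert (ext_bot hL) c) := by
        apply hc.1.insert
        intro b _ _
        left
        exact empty_subset _
      have h2 := hc.2 h1 (subset_insert _ _)
      rw [h2]
      exact mem_insert _ _
    have htop : ext_top 𝒯 ∈ c := by
      have h1 : IsChain (· ≤ ·) (insert (ext_top 𝒯) c) := by
        apply hc.1.insert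
        intro b _ _
        right
        exact subset_univ _
      have h2 := hc.2 h1 (subset_insert _ _)
      rw [h2]
      exact mem_insert _ _
    set S : Set (Set (E d)) := {F | F.Nonempty ∧ F ≠ univ ∧ ∃ x ∈ c, x.1 = F} with hS
    have hSfc : ∀ F ∈ S, Fc 𝒯 F := by
      rintro F ⟨h1, h2, x, hx, rfl⟩
      rcases x.2 with h | h
      · exact absurd h h2
      · exact ⟨h1, h⟩
    have hSchain : IsChain (· ⊆ ·) S := by
      rintro F ⟨-, -, x, hx, rfl⟩ G ⟨-, -, y, hy, rfl⟩ hxy
      have h2 : x ≠ y := fun h => hxy (by rw [h])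
      exact hc.1 hx hy h2
    let cc : Set (E d) → E d := fun F => if h : (ri F).Nonempty then h.some else 0
    have hcc : ∀ F, Fc 𝒯 F → cc F ∈ ri F := by
      intro F hF
      have h := (hri F hF).2.2
      simp only [cc]
      rw [dif_pos h]
      exact h.some_mem
    have hbound : ∀ s : Finset (Set (E d)), (s : Set (Set (E d))) ⊆ S → s.card ≤ d + 1 := by
      intro s hs
      obtain ⟨F, hF, hFs⟩ := ext_enum s (hSchain.mono hs)
      have hFfc : ∀ i, Fc 𝒯 (F i) := fun i => hSfc _ (hs (hFs i))
      exact (hdim s.card F cc hFfc hF (fun i => hcc _ (hFfc i))).2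
    have hSfin : S.Finite := by
      by_contra h
      obtain ⟨s, hs, hcard⟩ := Set.Infinite.exists_subset_card_eq h (d + 2)
      have := hbound s hs
      omega
    let vv : FP 𝒯 → Set (E d) := fun x => x.1
    have himg : vv '' c = insert ∅ (insert univ S) := by
      ext F
      constructor
      · rintro ⟨x, hx, rfl⟩
        rcases eq_empty_or_nonempty x.1 with h | h
        · exact Or.inl h
        · by_cases h2 : x.1 = univ
          · exact Or.inr (Or.inl h2)
          · exact Or.inr (Or.inr ⟨h, h2, x, hx, rfl⟩)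
      · rintro (rfl | rfl | ⟨-, -, x, hx, rfl⟩)
        · exact ⟨ext_bot hL, hbot, rfl⟩
        · exact ⟨ext_top 𝒯, htop, rfl⟩
        · exact ⟨x, hx, rfl⟩
    have hinj : Function.Injective vv := fun x y h => Subtype.ext h
    have hfin : (vv '' c).Finite := by
      rw [himg]
      exact (hSfin.insert _).insert _
    refine ⟨hSfin.toFinset, ?_, ?_, ?_, ?_, ?_⟩
    · intro F
      rw [Set.Finite.mem_toFinset]
      rfl
    · intro F hF
      rw [Set.Finite.mem_toFinset] at hF
      exact hSfc F hF
    · have huniv : (univ : Set (E d)) ∉ S := by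
        rintro ⟨-, h, -⟩
        exact h rfl
      have hempty : (∅ : Set (E d)) ∉ insert univ S := by
        rintro (h | ⟨h, -, -⟩)
        · exact absurd h (empty_ne_univ)
        · exact h.ne_empty rfl
      rw [← Set.ncard_image_of_injective c hinj, himg,
        Set.ncard_insert_of_notMem hempty (hSfin.insert _),
        Set.ncard_insert_of_notMem huniv hSfin, ← Set.ncard_eq_toFinset_card S hSfin]
    · exact Set.Finite.of_finite_image hfin hinj.injOn
    · apply hbound
      intro F hF
      rw [Finset.mem_coe, Set.Finite.mem_toFinset] at hF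
      exact hF

end TL
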